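import Pool.Agent.W670.TL.Defs

namespace Pool.Agent.W358.TL

open Pool.Agent.W670.TL

theorem chb : S_CHB := by
  intro τ hτ
  refine ⟨τ / 10, by positivity, ?_⟩
  intro Z hZ
  have hP : (Finset.card ((Finset.range (Z + 1)).filter Nat.Prime) : ℝ) =
      (Nat.primeCounting Z : ℝ) := by
    rw [Nat.primeCounting, Nat.primeCounting', Nat.count_eq_card_filter_range]
  rw [hP]
  have h1 := Chebyshev.psi_ge Z
  have h2 := Chebyshev.psi_le_primeCounting_mul_log Z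
  have hZ' : (2 : ℝ) ≤ Z := by exact_mod_cast hZ
  have h3 : Real.log Z ≤ (Z : ℝ) ^ τ / τ := Real.log_le_rpow_div (by linarith) hτ
  have h4 : Real.log ((Z : ℝ) + 1) ≤ ((Z : ℝ) + 1) / 4 - 1 + 2 * Real.log 2 := by
    have h := Real.log_le_sub_one_of_pos (show (0 : ℝ) < ((Z : ℝ) + 1) / 4 by linarith)
    rw [Real.log_div (by linarith) (by norm_num)] at h
    have h5 : Real.log 4 = 2 * Real.log 2 := by
      rw [show (4 : ℝ) = 2 ^ 2 by norm_num, Real.log_pow]; norm_num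
    linarith
  have h5 := Real.log_two_gt_d9
  have h6 : (Z : ℝ) / 10 ≤ (Nat.primeCounting Z : ℝ) * Real.log Z := by nlinarith
  have h7 : (Z : ℝ) / 10 ≤ (Nat.primeCounting Z : ℝ) * ((Z : ℝ) ^ τ / τ) :=
    h6.trans (mul_le_mul_of_nonneg_left h3 (Nat.cast_nonneg _))
  have h8 : (Z : ℝ) ^ (1 - τ) = Z / (Z : ℝ) ^ τ := by
    rw [Real.rpow_sub (by linarith), Real.rpow_one]
  rw [h8]
  have h9 : 0 < (Z : ℝ) ^ τ := Real.rpow_pos_of_pos (by linarith) _
  rw [← mul_div_assoc, div_le_iff₀ h9]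
  have h10 : (Nat.primeCounting Z : ℝ) * ((Z : ℝ) ^ τ / τ) * τ =
      (Nat.primeCounting Z : ℝ) * (Z : ℝ) ^ τ := by field_simp
  rw [← h10]
  have h11 := mul_le_mul_of_nonneg_right h7 hτ.le
  linarith

end Pool.Agent.W358.TL
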